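import Mathlib
import Pool.Agent.H72.EQQ.Targets

/-!
Row SEQ of the board EQ+: the tail of the series over the excess (helper49).
-/

set_option autoImplicit false

open Pool.Agent.H38.AE.Statement Pool.Agent.H38.AT MeasureTheory Filter
open Pool.Agent.H71.EQ

namespace Pool.Agent.H49.EQQ

open Pool.Agent.H72.EQQ

/-- the local factor -/
private noncomputable def gl (n s : ℝ) (p j : ℕ) : ℝ :=
  if j = 0 then 1 else n * (p : ℝ) ^ (-(1 + s * j))

/-- the multiplicative majorant -/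
private noncomputable def fm (n s : ℝ) (E : ℕ) : ℝ := E.factorization.prod (gl n s)

private lemma gl_nonneg (n s : ℝ) (hn : 0 ≤ n) (p j : ℕ) : 0 ≤ gl n s p j := by
  unfold gl
  split_ifs
  · exact zero_le_one
  · exact mul_nonneg hn (Real.rpow_nonneg (Nat.cast_nonneg _) _)

private lemma fm_nonneg (n s : ℝ) (hn : 0 ≤ n) (E : ℕ) : 0 ≤ fm n s E := by
  unfold fm
  rw [Finsupp.prod]
  exact Finset.prod_nonneg fun p _ => gl_nonneg n s hn p _

private lemma fm_one (n s : ℝ) : fm n s 1 = 1 := by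
  unfold fm
  rw [Nat.factorization_one, Finsupp.prod_zero_index]

private lemma fm_mul (n s : ℝ) {a b : ℕ} (h : a.Coprime b) :
    fm n s (a * b) = fm n s a * fm n s b := by
  unfold fm
  rcases Nat.eq_zero_or_pos a with ha | ha
  · subst ha
    rw [Nat.coprime_zero_left] at h
    subst h
    simp
  rcases Nat.eq_zero_or_pos b with hb | hb
  · subst hb
    rw [Nat.coprime_zero_right] at h
    subst h
    simp
  rw [Nat.factorization_mul ha.ne' hb.ne', Finsupp.prod_add_index_of_disjoint]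
  rw [Nat.support_factorization, Nat.support_factorization]
  exact h.disjoint_primeFactors

private lemma fm_pp (n s : ℝ) {p : ℕ} (hp : p.Prime) (j : ℕ) : fm n s (p ^ j) = gl n s p j := by
  unfold fm
  rw [hp.factorization_pow, Finsupp.prod_single_index]
  unfold gl
  rw [if_pos rfl]

private lemma gl_succ (n s : ℝ) {p : ℕ} (hp : p.Prime) (j : ℕ) :
    gl n s p (j + 1) = n * (p : ℝ) ^ (-(1 + s)) * ((p : ℝ) ^ (-s)) ^ j := by
  have hp0 : (0 : ℝ) < p := by exact_mod_cast hp.pos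
  unfold gl
  rw [if_neg (Nat.succ_ne_zero j), ← Real.rpow_natCast, ← Real.rpow_mul hp0.le, mul_assoc,
    ← Real.rpow_add hp0]
  congr 2
  push_cast
  ring

private lemma gl_sum (n s : ℝ) (hn : 0 ≤ n) (hs : 0 < s) {p : ℕ} (hp : p.Prime) :
    Summable (fun j => gl n s p j) ∧
    ∑' j, gl n s p j ≤ 1 + n * (1 - (2 : ℝ) ^ (-s))⁻¹ * (p : ℝ) ^ (-(1 + s)) := by
  have hp2 : (2 : ℝ) ≤ p := by exact_mod_cast hp.two_le
  have hp0 : (0 : ℝ) < p := by linarith
  have h2 : (2 : ℝ) ^ (-s) < 1 := Real.rpow_lt_one_of_one_lt_of_neg (by norm_num) (by linarith)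
  have hp1 : (p : ℝ) ^ (-s) ≤ (2 : ℝ) ^ (-s) :=
    Real.rpow_le_rpow_of_nonpos (by norm_num) hp2 (by linarith)
  have hq0 : 0 ≤ (p : ℝ) ^ (-s) := Real.rpow_nonneg hp0.le _
  have hq1 : (p : ℝ) ^ (-s) < 1 := by linarith
  have hg := (hasSum_geometric_of_lt_one hq0 hq1).mul_left (n * (p : ℝ) ^ (-(1 + s)))
  have hg1 : HasSum (fun j => gl n s p (j + 1))
      (n * (p : ℝ) ^ (-(1 + s)) * (1 - (p : ℝ) ^ (-s))⁻¹) := by
    have h3 : (fun j => gl n s p (j + 1)) =
        fun j => n * (p : ℝ) ^ (-(1 + s)) * ((p : ℝ) ^ (-s)) ^ j :=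
      funext fun j => gl_succ n s hp j
    rw [h3]
    exact hg
  have hsum : Summable (fun j => gl n s p j) := (summable_nat_add_iff 1).1 hg1.summable
  refine ⟨hsum, ?_⟩
  rw [hsum.tsum_eq_zero_add, hg1.tsum_eq]
  have h0 : gl n s p 0 = 1 := if_pos rfl
  rw [h0]
  have h4 : (1 - (p : ℝ) ^ (-s))⁻¹ ≤ (1 - (2 : ℝ) ^ (-s))⁻¹ :=
    inv_anti₀ (by linarith) (by linarith)
  have h5 : 0 ≤ n * (p : ℝ) ^ (-(1 + s)) := mul_nonneg hn (Real.rpow_nonneg hp0.le _)
  nlinarith [mul_le_mul_of_nonneg_left h4 h5]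

private lemma fm_bound (n s : ℝ) (hn : 0 ≤ n) (hs : 0 < s) : ∃ C : ℝ, 0 < C ∧
    ∀ F : Finset ℕ, (∀ E ∈ F, 1 ≤ E) → ∑ E ∈ F, fm n s E ≤ C := by
  classical
  obtain ⟨A, hA⟩ : ∃ A : ℝ, A = n * (1 - (2 : ℝ) ^ (-s))⁻¹ := ⟨_, rfl⟩
  have h2 : (2 : ℝ) ^ (-s) < 1 := Real.rpow_lt_one_of_one_lt_of_neg (by norm_num) (by linarith)
  have hA0 : 0 ≤ A := by
    rw [hA]
    exact mul_nonneg hn (inv_nonneg.2 (by linarith))
  have hsm : Summable (fun m : ℕ => (m : ℝ) ^ (-(1 + s))) :=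
    Real.summable_nat_rpow.2 (by linarith)
  refine ⟨Real.exp (A * ∑' m : ℕ, (m : ℝ) ^ (-(1 + s))), Real.exp_pos _, fun F hF => ?_⟩
  obtain ⟨N, hN⟩ : ∃ N : ℕ, ∀ E ∈ F, E < N :=
    ⟨F.sup id + 1, fun E hE => Nat.lt_succ_of_le (Finset.le_sup (f := id) hE)⟩
  have hFN : ∀ E ∈ F, E ∈ N.smoothNumbers := by
    intro E hE
    rw [Nat.mem_smoothNumbers]
    refine ⟨by have := hF E hE; omega, fun p hp => ?_⟩
    have h3 : p ≤ E := Nat.le_of_mem_primeFactorsList hp
    exact lt_of_le_of_lt h3 (hN E hE)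
  obtain ⟨h4, h5⟩ := EulerProduct.summable_and_hasSum_smoothNumbers_prod_primesBelow_tsum
    (f := fm n s) (fm_one n s) (fun h => fm_mul n s h) (fun {p} hp => by
      have h6 := (gl_sum n s hn hs hp).1
      refine h6.congr fun j => ?_
      rw [fm_pp n s hp, Real.norm_of_nonneg (gl_nonneg n s hn p j)]) N
  have h6 : ∑ E ∈ F, fm n s E ≤ ∏ p ∈ N.primesBelow, ∑' j : ℕ, fm n s (p ^ j) := by
    rw [← Finset.sum_subtype_of_mem (fm n s) hFN, ← h5.tsum_eq]
    exact h5.summable.sum_le_tsum _ fun i _ => fm_nonneg n s hn _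
  refine h6.trans ?_
  have h7 : ∀ p ∈ N.primesBelow, ∑' j : ℕ, fm n s (p ^ j) ≤
      Real.exp (A * (p : ℝ) ^ (-(1 + s))) := by
    intro p hp
    have hpp : p.Prime := Nat.prime_of_mem_primesBelow hp
    have h8 : ∑' j : ℕ, fm n s (p ^ j) = ∑' j : ℕ, gl n s p j :=
      tsum_congr fun j => fm_pp n s hpp j
    rw [h8]
    refine (gl_sum n s hn hs hpp).2.trans ?_
    rw [← hA]
    have := Real.add_one_le_exp (A * (p : ℝ) ^ (-(1 + s)))
    linarith
  refine (Finset.prod_le_prod (fun p _ => tsum_nonneg fun j => fm_nonneg n s hn _) h7).trans ?_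
  rw [← Real.exp_sum, ← Finset.mul_sum]
  refine Real.exp_le_exp.2 (mul_le_mul_of_nonneg_left ?_ hA0)
  exact hsm.sum_le_tsum _ fun i _ => Real.rpow_nonneg (Nat.cast_nonneg _) _

private lemma wt_le (hPRD : T_PRD) (k E : ℕ) (hk : 2 ≤ k) (hE : 1 ≤ E) :
    wt (k + 1) E ≤ ∏ p ∈ E.primeFactors, wloc (k + 1) p (E.factorization p) := by
  obtain ⟨-, hlim, -, -, hloc⟩ := hPRD k E hk hE
  refine le_of_tendsto hlim ?_
  filter_upwards [eventually_ge_atTop E] with z hz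
  unfold wz
  have hsub : E.primeFactors ⊆ (Finset.range (z + 1)).filter Nat.Prime := by
    intro p hp
    rw [Finset.mem_filter, Finset.mem_range]
    refine ⟨?_, Nat.prime_of_mem_primeFactors hp⟩
    have := Nat.le_of_mem_primeFactors hp
    omega
  rw [← Finset.prod_sdiff hsub]
  have h1 : ∏ p ∈ (Finset.range (z + 1)).filter Nat.Prime \ E.primeFactors,
      wloc (k + 1) p (E.factorization p) ≤ 1 := by
    refine Finset.prod_le_one (fun p hp => ?_) (fun p hp => ?_)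
    · exact (hloc p _ (Finset.mem_filter.1 (Finset.mem_sdiff.1 hp).1).2).1
    · exact (hloc p _ (Finset.mem_filter.1 (Finset.mem_sdiff.1 hp).1).2).2.1
  have h2 : 0 ≤ ∏ p ∈ E.primeFactors, wloc (k + 1) p (E.factorization p) :=
    Finset.prod_nonneg fun p hp => (hloc p _ (Nat.prime_of_mem_primeFactors hp)).1
  calc _ ≤ 1 * ∏ p ∈ E.primeFactors, wloc (k + 1) p (E.factorization p) :=
        mul_le_mul_of_nonneg_right h1 h2
    _ = _ := one_mul _

private lemma wt_fm (hDEN : T_DEN) (hPRD : T_PRD) (k E : ℕ) (hk : 2 ≤ k) (hE : 1 ≤ E) (s : ℝ) :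
    wt (k + 1) E * (E : ℝ) ^ (1 - s) ≤ fm ((k : ℝ) + 1) s E := by
  have hE0 : E ≠ 0 := by omega
  have h1 : (E : ℝ) ^ (1 - s) =
      ∏ p ∈ E.primeFactors, (((p : ℝ) ^ (E.factorization p)) ^ (1 - s)) := by
    rw [Real.finset_prod_rpow _ _ (fun p _ => pow_nonneg (Nat.cast_nonneg _) _)]
    congr 1
    have h2 := Nat.factorization_prod_pow_eq_self hE0
    rw [Finsupp.prod, Nat.support_factorization] at h2
    nth_rewrite 1 [← h2]
    push_cast
    rfl
  have hnn : 0 ≤ (E : ℝ) ^ (1 - s) := Real.rpow_nonneg (Nat.cast_nonneg _) _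
  refine (mul_le_mul_of_nonneg_right (wt_le hPRD k E hk hE) hnn).trans ?_
  rw [h1, ← Finset.prod_mul_distrib]
  unfold fm
  rw [Finsupp.prod, Nat.support_factorization]
  refine Finset.prod_le_prod (fun p hp => ?_) (fun p hp => ?_)
  · have hpp := Nat.prime_of_mem_primeFactors hp
    exact mul_nonneg ((hPRD k E hk hE).2.2.2.2 p _ hpp).1
      (Real.rpow_nonneg (pow_nonneg (Nat.cast_nonneg _) _) _)
  · have hpp := Nat.prime_of_mem_primeFactors hp
    have hp0 : (0 : ℝ) < p := by exact_mod_cast hpp.pos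
    have hj : 1 ≤ E.factorization p := by
      have h3 : p ∈ E.factorization.support := by rw [Nat.support_factorization]; exact hp
      have := Finsupp.mem_support_iff.1 h3
      omega
    obtain ⟨j, hjd⟩ : ∃ j, j = E.factorization p := ⟨_, rfl⟩
    rw [← hjd] at hj ⊢
    have h4 := ((hDEN k p hk hpp).2 j hj).2
    have h5 : 0 ≤ ((p : ℝ) ^ j) ^ (1 - s) := Real.rpow_nonneg (pow_nonneg hp0.le _) _
    refine (mul_le_mul_of_nonneg_right h4 h5).trans (le_of_eq ?_)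
    unfold gl
    rw [if_neg (by omega), div_mul_eq_mul_div, mul_div_assoc]
    congr 1
    rw [← Real.rpow_natCast, ← Real.rpow_natCast, ← Real.rpow_mul hp0.le, ← Real.rpow_sub hp0]
    congr 1
    push_cast
    ring

/-- SEQ: the series over the excess. -/
theorem pf_SEQ (hDEN : T_DEN) (hPRD : T_PRD) : T_SEQ := by
  intro k hk
  have hk2 : (2 : ℝ) ≤ k := by exact_mod_cast hk
  have hnu : 0 < nu k := by unfold nu; positivity
  obtain ⟨C, hC, hb⟩ := fm_bound ((k : ℝ) + 1) (nu k / 2) (by linarith) (by linarith)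
  refine ⟨nu k / 2, C, by linarith, hC, fun Y F hY hF => ?_⟩
  have hY0 : 0 < Y := by linarith
  have hF1 : ∀ E ∈ F, 1 ≤ E := by
    intro E hE
    have h1 : (1 : ℝ) ≤ (E : ℝ) := hY.trans (hF E hE)
    exact_mod_cast h1
  have hterm : ∀ E ∈ F, wt (k + 1) E * (E : ℝ) ^ (1 - nu k) ≤
      fm ((k : ℝ) + 1) (nu k / 2) E * Y ^ (-(nu k / 2)) := by
    intro E hE
    have hE0 : (0 : ℝ) < E := by linarith [hF E hE]
    have h0 : 0 ≤ wt (k + 1) E := (hPRD k E hk (hF1 E hE)).2.2.1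
    have h1 := wt_fm hDEN hPRD k E hk (hF1 E hE) (nu k / 2)
    have h2 : (E : ℝ) ^ (1 - nu k) = (E : ℝ) ^ (1 - nu k / 2) * (E : ℝ) ^ (-(nu k / 2)) := by
      rw [← Real.rpow_add hE0]
      congr 1
      ring
    have h3 : (E : ℝ) ^ (-(nu k / 2)) ≤ Y ^ (-(nu k / 2)) :=
      Real.rpow_le_rpow_of_nonpos hY0 (hF E hE) (by linarith)
    rw [h2, ← mul_assoc]
    exact mul_le_mul h1 h3 (Real.rpow_nonneg hE0.le _) (fm_nonneg _ _ (by linarith) _)
  refine (Finset.sum_le_sum hterm).trans ?_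
  rw [← Finset.sum_mul]
  exact mul_le_mul_of_nonneg_right (hb F hF1) (Real.rpow_nonneg hY0.le _)

end Pool.Agent.H49.EQQ
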